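import Pool.Agent.J4H86.AF.Main

/-!
# Density thresholds forcing unbounded representation counts: sets closed under affine operations

`rep A n` is the number of ordered pairs of elements of `A` with sum `n`, and
`count A N = |A ∩ [1, N]|`.

1. If `A` is closed under two affine maps `x ↦ a₁ x + b₁` and `x ↦ a₂ x + b₂` which do not commute,
   then `rep A n ≥ c n ^ δ` for infinitely many `n`, where `δ = log 2 / log (a₁ a₂)`.
2. Let `g` be any nondecreasing function. If `count A N ≥ c √N / g(N)` for infinitely many `N`, and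
   the set of the `x ∈ A` for which one of the numbers `a₁ x + b₁`, `a₂ x + b₂` is not in `A` has
   `o(√N / g(N))` elements in `[1, N]`, then `rep A` is unbounded.
3. Branching sets: the same is true if all `x ∈ A` except `o(√N / g(N))` of them have at least `s`
   elements of `A` among the numbers `q x + c`, `c ∈ C`, where the elements of `C` are different
   modulo `q` and `s ^ 2 > |C + C|`; if there is no exception at all, then `rep A n ≥ c n ^ δ` for
   infinitely many `n`, where `δ = log (s ^ 2 / |C + C|) / log q`.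
4. If `A` has at least three elements and is closed under an operation
   `f (x, y) = α x y + β x + γ y + δ` with natural coefficients, which depends on both variables
   and is not conjugate to a multiplication (`α f + β = (α x + β) (α y + β)`, `α ≥ 1`), then
   `rep A n ≥ c n ^ η` for infinitely many `n` and some `c, η > 0`.
5. For the operations excluded in 4 there are infinite closed sets with `rep A n ≤ 2` for all `n`.
-/

set_option autoImplicit false

namespace Pool.Agent.Results.MP_491344_nt.AffineOperations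

open Finset Filter Pool.Agent.J4H86.AF
open scoped Pointwise

/-- Sets closed, or almost closed, under affine operations: see the beginning of the file. -/
theorem result :
    -- (1) two affine maps which do not commute
    (∀ a₁ b₁ a₂ b₂ : ℕ, 1 ≤ a₁ → 1 ≤ a₂ → a₁ * b₂ + b₁ ≠ a₂ * b₁ + b₂ →
      ∀ A : Set ℕ, A.Nonempty → (∀ x ∈ A, a₁ * x + b₁ ∈ A ∧ a₂ * x + b₂ ∈ A) →
        Growth A (Real.log 2 / Real.log ((a₁ * a₂ : ℕ) : ℝ))) ∧
    -- (2) sets which are almost closed under such maps
    (∀ a₁ b₁ a₂ b₂ : ℕ, 1 ≤ a₁ → 1 ≤ a₂ → a₁ * b₂ + b₁ ≠ a₂ * b₁ + b₂ →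
      ∀ g : ℕ → ℝ, Monotone g → (∀ N, 0 < g N) → ∀ A : Set ℕ,
        DenseUpTo g A {x | x ∈ A ∧ (a₁ * x + b₁ ∉ A ∨ a₂ * x + b₂ ∉ A)} → Unb A) ∧
    -- (3) branching sets
    (∀ (q s : ℕ) (C : Finset ℕ), 2 ≤ q → (∀ c ∈ C, ∀ c' ∈ C, c % q = c' % q → c = c') →
      (C + C).card < s ^ 2 → ∀ A : Set ℕ,
        (∀ g : ℕ → ℝ, Monotone g → (∀ N, 0 < g N) →
          DenseUpTo g A (Poor q C s A) → Unb A) ∧
        (A.Nonempty → Poor q C s A = ∅ →
          Growth A (Real.log ((s : ℝ) ^ 2 / (C + C).card) / Real.log q))) ∧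
    -- (4) bilinear operations
    (∀ α β γ δ : ℕ, (1 ≤ α ∨ (1 ≤ β ∧ 1 ≤ γ)) → (α = 0 ∨ β ≠ γ ∨ α * δ + β ≠ β * β) →
      ∀ A : Set ℕ, 3 ≤ A.encard → (∀ x ∈ A, ∀ y ∈ A, α * (x * y) + β * x + γ * y + δ ∈ A) →
        ∃ η : ℝ, 0 < η ∧ Growth A η) ∧
    -- (5) the operations which are excluded in (4)
    (∀ α β δ : ℕ, 1 ≤ α → α * δ + β = β * β →
      ∃ A : Set ℕ, A.Infinite ∧ (∀ x ∈ A, ∀ y ∈ A, α * (x * y) + β * x + β * y + δ ∈ A) ∧
        ∀ n, rep A n ≤ 2) := by
  refine ⟨?_, ?_, ?_, ?_, fun α β δ hα h => conjugate hα h⟩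
  · intro a₁ b₁ a₂ b₂ h1 h2 hne A hA h
    exact two_maps h1 h2 hne hA h
  · intro a₁ b₁ a₂ b₂ h1 h2 hne g hg hg0 A h
    exact two_maps_almost h1 h2 hne (sparse_of_dense hg hg0 h)
  · intro q s C hq hmod hs A
    refine ⟨?_, ?_⟩
    · intro g hg hg0 h
      exact branching hq (uniq_of_mod (by omega) hmod) hs (sparse_of_dense hg hg0 h)
    · intro hA h
      exact branching_exact hq (uniq_of_mod (by omega) hmod) hs hA h
  · intro α β γ δ hdep hcon A hA h
    exact bilinear hdep hcon hA h

end Pool.Agent.Results.MP_491344_nt.AffineOperations
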