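import Pool.Agent.J4H33.P5

/-!
# Density thresholds forcing unbounded representations: small random perturbations of arbitrary sets

Let `A` be ANY set of natural numbers with `|A ∩ [1, N]| ≥ c √N / g(N)` for infinitely many `N`. Divide the natural numbers into
classes of diameter at most `L` (for example intervals of length `L`, or single integers, `L = 1`) and translate the elements
of `A` in each class by a random natural number; the translations of different classes are independent, and each takes each value
`r < m` with probability at least `1 / M`, where `M = N ^ o(1)` (for example they are uniformly distributed in `[0, m)`). If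
`g ² L = o(m)`, in the form `g(N⁴)² L(N⁴) / m(N) → 0`, then almost surely the representation function of the translated set is
unbounded. For bounded `g` (the density of the Erdős–Turán conjecture for additive bases) `L` and `m` may tend to infinity
arbitrarily slowly, with `L = o(m)`.

Proof. Fix `K`. A class with more than `√(2 K L)` elements has `K` representations of some integer, whatever the
translations. If there is none, choose one element from every class. In the remaining set there are, as `g ² L = o(m)`, `K`
disjoint pairs whose sums lie in one interval of length `m / 2`: either `2 K` elements lie in an interval of length `m / 4`, or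
the graph of the pairs with sums in a suitable interval has many edges and bounded degrees. The elements of these pairs can be
translated by less than `m` so that the pairs become `K` different representations of one integer. There are at least
`N ^ (7 / 16)` such groups of pairs, they are disjoint, and each of them is translated in the required way with probability at
least `M ^ (-2 K) ≥ N ^ (- 1 / 4)`, independently.
-/

set_option autoImplicit false

namespace Pool.Agent.Results.MP_491344_nt.PerturbedSets

open MeasureTheory ProbabilityTheory Filter

universe u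

/-- the number of ordered representations of `n` as a sum of two elements of `B` -/
noncomputable def rep (B : Set ℕ) (n : ℕ) : ℕ := Set.ncard {p : ℕ × ℕ | p.1 ∈ B ∧ p.2 ∈ B ∧ p.1 + p.2 = n}

/-- the set of the `a + x (β a)`, `a ∈ A`: the elements of `A` in the class `j` are translated by `x j` -/
def translated (A : Set ℕ) (β x : ℕ → ℕ) : Set ℕ := {b | ∃ a ∈ A, b = a + x (β a)}

/-- Let `g, L, m, M` be nondecreasing functions with `g > 0`, `L, m ≥ 1`, `g(N⁴)² L(N⁴) / m(N) → 0` and `M(N) = N ^ o(1)`. Let
`β a` be the class of `a`, for a division of `ℕ` into classes with `b - a ≤ L b` for `a ≤ b` in the same class, and let `X j` be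
independent random natural numbers with `P(X (β a) = r) ≥ 1 / M a` for all `r < m a`. If `A` is a set with
`|A ∩ [1, N]| ≥ c √N / g(N)` for infinitely many `N`, then almost surely the representation function of the set of all
`a + X (β a)`, `a ∈ A`, is unbounded. -/
theorem result (g L m M : ℕ → ℝ) (hg : ∀ N, 0 < g N) (hL : ∀ N, 1 ≤ L N) (hm : ∀ N, 1 ≤ m N) (hM : ∀ N, 0 < M N)
    (hg' : Monotone g) (hL' : Monotone L) (hm' : Monotone m) (hM' : Monotone M)
    (h1 : Tendsto (fun N : ℕ => g (N ^ 4) ^ 2 * L (N ^ 4) / m N) atTop (nhds 0))
    (h2 : ∀ ε : ℝ, 0 < ε → ∀ᶠ N : ℕ in atTop, M N ≤ (N : ℝ) ^ ε)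
    (β : ℕ → ℕ) (hβ : ∀ a b : ℕ, a ≤ b → β a = β b → (b : ℝ) - a ≤ L b)
    {Ω : Type u} [MeasurableSpace Ω] (μ : Measure Ω) [IsProbabilityMeasure μ] (X : ℕ → Ω → ℕ)
    (hX : ∀ j, Measurable (X j)) (hind : iIndepFun X μ)
    (hlaw : ∀ a r : ℕ, (r : ℝ) < m a → 1 / M a ≤ (μ (X (β a) ⁻¹' {r})).toReal)
    (A : Set ℕ) (c : ℝ) (hc : 0 < c) (hA : ∃ᶠ N : ℕ in atTop, c * Real.sqrt N / g N ≤ ((A ∩ Set.Icc 1 N).ncard : ℝ)) :
    ∀ᵐ ω ∂μ, ∀ K : ℕ, ∃ n : ℕ, K ≤ rep (translated A β (fun j => X j ω)) n :=
  Pool.Agent.J4H33.PS.random_shift μ X hX hind β g L m M hg hg' hL hL' hm hm' hM hM' h1 h2 hβ hlaw A c hc hA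

end Pool.Agent.Results.MP_491344_nt.PerturbedSets
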