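import Pool.Agent.J4H48.SM.Det

/-!
# Density thresholds for randomly perturbed sets

Every element `a` of an ARBITRARY fixed set `A` is moved to `a + ξ a`, where the `ξ a` are
independent, take values in `{0, …, m a - 1}` and take each of these values with probability at
least `κ / m a` (`Noise μ m κ ξ`); `shift A x = {a + x a | a ∈ A}`. Here `rep B n` is the number of
ordered pairs of elements of `B` with sum `n`, and `count A N = |A ∩ [1, N]|`.

1. If `m a = a ^ o(1)` and `g(N)² = o(min_{1 ≤ n ≤ N} m(n) √(N / n))`, then every `A` with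
   `|A ∩ [1, N]| ≥ c √N / g(N)` for infinitely many `N` has almost surely an unbounded
   representation function after the perturbation.
2. Hence for EVERY amplitude `m → ∞` (arbitrarily slowly) with `m a = a ^ o(1)` there is a `g → ∞`,
   depending only on `m`, which forces unbounded representations for the perturbed sets.
3. Perturbations of bounded amplitude change nothing: `A` and `shift A x` have simultaneously
   unbounded representation functions if `x` is bounded, so for bounded `m` the statement of 2 is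
   the original problem.
-/

set_option autoImplicit false

namespace Pool.Agent.Results.MP_491344_nt.SmoothedThresholds

open Filter MeasureTheory Pool.Agent.J4H48.SM

universe u

/-- the representation function is unbounded -/
def Unb (A : Set ℕ) : Prop := ∀ K, ∃ n, K < rep A n

/-- `g` forces unbounded representations after every random perturbation of amplitude `m` -/
def PerturbedForces (m : ℕ → ℕ) (g : ℕ → ℝ) : Prop :=
  ∀ (Ω : Type u) [MeasurableSpace Ω] (μ : Measure Ω) [IsProbabilityMeasure μ] (κ : ℝ)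
    (ξ : ℕ → Ω → ℕ), 0 < κ → Noise μ m κ ξ → ∀ (A : Set ℕ) (c : ℝ), 0 < c →
      (∃ᶠ N : ℕ in atTop, c * Real.sqrt N ≤ g N * count A N) →
      ∀ᵐ ω ∂μ, Unb (shift A fun a => ξ a ω)

/-- **Density thresholds for randomly perturbed sets.** -/
theorem result :
    -- 1. the explicit condition
    (∀ (m : ℕ → ℕ) (g : ℕ → ℝ), (∀ a, 1 ≤ m a) →
      (∀ ε : ℝ, 0 < ε → ∀ᶠ a : ℕ in atTop, (m a : ℝ) ≤ (a : ℝ) ^ ε) →
      (∀ᶠ N : ℕ in atTop, 0 < g N) →
      (∀ C : ℝ, ∀ᶠ N : ℕ in atTop, ∀ n : ℕ, 1 ≤ n → n ≤ N →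
        C * g N ^ 2 ≤ m n * Real.sqrt (N / n)) →
      PerturbedForces.{u} m g) ∧
    -- 2. every amplitude tending to infinity
    (∀ m : ℕ → ℕ, (∀ a, 1 ≤ m a) → Tendsto m atTop atTop →
      (∀ ε : ℝ, 0 < ε → ∀ᶠ a : ℕ in atTop, (m a : ℝ) ≤ (a : ℝ) ^ ε) →
      ∃ g : ℕ → ℝ, Tendsto g atTop atTop ∧ PerturbedForces.{u} m g) ∧
    -- 3. bounded perturbations change nothing
    (∀ (A : Set ℕ) (x : ℕ → ℕ) (B : ℕ), (∀ a, x a ≤ B) → (Unb (shift A x) ↔ Unb A)) := by
  refine ⟨?_, ?_, fun A x B hx => bounded_iff A x B hx⟩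
  · intro m g h1 h2 h3 h4 Ω _ μ _ κ ξ hκ hn A c hc hA
    exact ae_unbounded hn hκ h1 h2 g h3 h4 A c hc hA
  · intro m h1 h2 h3
    obtain ⟨g, hg1, hg2⟩ := exists_g h1 h2
    refine ⟨g, hg1, ?_⟩
    intro Ω _ μ _ κ ξ hκ hn A c hc hA
    exact ae_unbounded hn hκ h1 h3 g (hg1.eventually_gt_atTop 0) hg2 A c hc hA

end Pool.Agent.Results.MP_491344_nt.SmoothedThresholds
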