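import Pool.Agent.J4H31.TS.Fin

/-!
# Density thresholds for sets thickened by finite sets, and for almost invariant sets

`rep B n` is the number of ordered pairs of elements of `B` with sum `n`, and `count A N = |A ∩ [1, N]|`.

Let `β a` be the class of `a`, for a division of `ℕ` into classes, and let `S j` be a finite set for each class `j`. `B` is
any set which contains `a + s` for nearly all pairs `a ∈ A`, `s ∈ S (β a)`. (For `B = A`: in the class `j` the set `A` is
almost invariant under the translations by the elements of `S j`.) The shape of the sets `S j` does not matter.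

1. If `|A ∩ [1, N]| ≥ c √N / g(N)` for infinitely many `N`, where `g(N) = o(k(N ^ (1 / 4)))` and `|S (β a)| ≥ k a`, then
   `rep B` is unbounded.
2. So for every `k → ∞`, arbitrarily slowly, there is a `g → ∞` which forces unbounded representations here.
3. For every infinite set `S` and every `g(N) = o(|S ∩ [1, N]|)` the set `A + S` has an unbounded representation function
   if `|A ∩ [1, N]| ≥ c √N / g(N)` for infinitely many `N`.
4. For finite sets `S` of a fixed size nothing changes: `rep (A + S)` is unbounded if and only if `rep A` is.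
5. Each `b` is reached from at most two classes if the classes are intervals and the translated elements of each class lie
   in this class or the next one.

Proof. Suppose `rep B ≤ R`. If `b = a + s = a' + s'` with `a, a'` in one class, then `2 b = (a + s') + (a' + s)`, so `b` has at
most `R` representations for each class, and the number of the pairs is at most `K R |B ∩ [1, 2 N]| ≤ 4 K R ^ 2 √N`.
-/

set_option autoImplicit false

namespace Pool.Agent.Results.MP_491344_nt.ThickenedSets

open Filter Topology Pool.Agent.J4H31.TS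

/-- the representation function is unbounded -/
def Unb (B : Set ℕ) : Prop := ∀ R : ℕ, ∃ n, R ≤ rep B n

/-- `β a` is the class of `a`; the elements of `A` in the class `j` are translated by the elements of `S j`, which are not
larger; each `b` is reached from at most `K` classes; and `S (β a)` has at least `k a` elements -/
structure Frame (β : ℕ → ℕ) (S : ℕ → Finset ℕ) (K : ℕ) (k : ℕ → ℕ) (A : Set ℕ) : Prop where
  small : ∀ a ∈ A, ∀ s ∈ S (β a), s ≤ a
  few : ∀ b, {j | ∃ a ∈ A, β a = j ∧ ∃ s ∈ S j, a + s = b}.encard ≤ K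
  large : ∀ a ∈ A, k a ≤ (S (β a)).card

/-- **Density thresholds for thickened sets.** -/
theorem result :
    -- 1. explicit thresholds; `B` contains nearly all `a + s`, `a ∈ A`, `s ∈ S (β a)`
    (∀ (k : ℕ → ℕ) (g : ℕ → ℝ), Monotone k → (∀ᶠ N : ℕ in atTop, 1 ≤ g N) →
      (∀ᶠ N : ℕ in atTop, g N ≤ (N : ℝ) ^ (1 / 5 : ℝ)) →
      Tendsto (fun N : ℕ => (k (Nat.sqrt (Nat.sqrt N)) : ℝ) / g N) atTop atTop →
      ∀ (β : ℕ → ℕ) (S : ℕ → Finset ℕ) (K : ℕ) (A B : Set ℕ), Frame β S K k A → ∀ c : ℝ, 0 < c →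
        (∀ δ : ℝ, 0 < δ → ∃ᶠ N : ℕ in atTop, c * Real.sqrt N / g N ≤ count A N ∧
          g N * bad A B β S N ≤ δ * count A N) →
        Unb B) ∧
    -- 2. some `g → ∞` for every `k → ∞` and every `ε → 0`
    (∀ k : ℕ → ℕ, Monotone k → Tendsto k atTop atTop → ∀ ε : ℕ → ℝ, Tendsto ε atTop (𝓝 0) →
      ∃ g : ℕ → ℝ, Tendsto g atTop atTop ∧
        ∀ (β : ℕ → ℕ) (S : ℕ → Finset ℕ) (K : ℕ) (A B : Set ℕ), Frame β S K k A →
          (∀ᶠ N : ℕ in atTop, bad A B β S N ≤ ε N * count A N) →
          (∃ c : ℝ, 0 < c ∧ ∃ᶠ N : ℕ in atTop, c * Real.sqrt N / g N ≤ count A N) →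
          Unb B) ∧
    -- 3. the sum with one infinite set
    (∀ (S A : Set ℕ) (g : ℕ → ℝ), (∀ N, 0 < g N) →
      Tendsto (fun N : ℕ => (count S N : ℝ) / g N) atTop atTop →
      (∃ c : ℝ, 0 < c ∧ ∃ᶠ N : ℕ in atTop, c * Real.sqrt N / g N ≤ count A N) →
      Unb {b | ∃ a ∈ A, ∃ s ∈ S, a + s = b}) ∧
    -- 4. the sum with a finite set
    (∀ S : Finset ℕ, S.Nonempty → ∀ A : Set ℕ, Unb {b | ∃ a ∈ A, ∃ s ∈ S, a + s = b} ↔ Unb A) ∧
    -- 5. intervals as classes
    (∀ (β : ℕ → ℕ) (S : ℕ → Finset ℕ) (A : Set ℕ), Monotone β →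
      (∀ a ∈ A, ∀ s ∈ S (β a), β (a + s) ≤ β a + 1) →
      ∀ b, {j | ∃ a ∈ A, β a = j ∧ ∃ s ∈ S j, a + s = b}.encard ≤ (2 : ℕ)) := by
  refine ⟨?_, ?_, ?_, ?_, ?_⟩
  · intro k g hk hg1 hg2 hkg β S K A B hF c hc hA
    exact thick β S K A B hF.small hF.few k hk hF.large g hg1 hg2 hkg c hc hA
  · intro k hk hk' ε hε
    obtain ⟨g, hg, h⟩ := exists_g k hk hk' ε hε
    exact ⟨g, hg, fun β S K A B hF hb hA => h β S K A B hF.small hF.few hF.large hb hA⟩
  · rintro S A g hg hS ⟨c, hc, hA⟩
    exact infinite_set S A g hg hS c hc hA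
  · intro S hS A
    have key : ∀ B : Set ℕ, Unb B ↔ ¬ ∃ R : ℕ, ∀ n, rep B n ≤ R := by
      intro B
      constructor
      · rintro h ⟨R, hR⟩
        obtain ⟨n, hn⟩ := h (R + 1)
        have := hR n
        omega
      · intro h R
        by_contra hcon
        push Not at hcon
        exact h ⟨R, fun n => (hcon n).le⟩
    rw [key, key, finite_set S hS A]
  · intro β S A hβ h b
    have h1 : {j | ∃ a ∈ A, β a = j ∧ ∃ s ∈ S j, a + s = b} ⊆ {β b, β b - 1} := by
      rintro j ⟨a, ha, rfl, s, hs, rfl⟩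
      have h2 := hβ (Nat.le_add_right a s)
      have h3 := h a ha s hs
      rw [Set.mem_insert_iff, Set.mem_singleton_iff]
      omega
    refine (Set.encard_le_encard h1).trans ((Set.encard_insert_le _ _).trans ?_)
    rw [Set.encard_singleton]
    norm_num

end Pool.Agent.Results.MP_491344_nt.ThickenedSets
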